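import Mathlib

/-!
# The class of representable implication semigroups is not a variety

There is a finitely representable finite algebra `A` of signature `(→, ;)` (with base of eleven
points) and a congruence of `A` whose quotient is not representable.  The congruence identifies
two relations if they differ in at most one fixed pair.  The quotient violates the quasi-identity

`k ≤ k₁ ; k₂  ⟹  e ; k ≤ ((e' → x) ; k) ∨ ((((e ; k₁) ∧ (e' ; k₁)) ∨ r) ; k₂)`,

which is valid in all representable algebras (`(a ∧ b) ∨ r` is the term `(a → (b → r)) → r`).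
-/

namespace Pool.Agent.Results.MP_390e14_lc.NotAVariety

universe u v

/-- Algebras of signature `(→, ;)`. -/
class Alg (A : Type u) where
  /-- the operation `→` -/
  imp : A → A → A
  /-- the operation `;` -/
  comp : A → A → A

open Alg

/-- Relative implication with respect to `T`. -/
def rImp {X : Type v} (T a b : Set (X × X)) : Set (X × X) := (T \ a) ∪ b

/-- Composition of binary relations. -/
def rComp {X : Type v} (a b : Set (X × X)) : Set (X × X) :=
  {p | ∃ y, (p.1, y) ∈ a ∧ (y, p.2) ∈ b}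

/-- Transitivity of a relation. -/
def Transitive {X : Type v} (T : Set (X × X)) : Prop :=
  ∀ x y z, (x, y) ∈ T → (y, z) ∈ T → (x, z) ∈ T

/-- The algebra `A` embeds into the full implication semigroup over some transitive relation `T`
on the set `X`. -/
def RepresentableOn (A : Type u) [Alg A] (X : Type v) : Prop :=
  ∃ (T : Set (X × X)) (h : A → Set (X × X)), Transitive T ∧ Function.Injective h ∧
    (∀ a, h a ⊆ T) ∧ (∀ a b, h (imp a b) = rImp T (h a) (h b)) ∧
    ∀ a b, h (comp a b) = rComp (h a) (h b)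

/-- The algebra `A` is representable. -/
def Representable (A : Type u) [Alg A] : Prop := ∃ X : Type v, RepresentableOn A X

/-- The algebra `A` is finitely representable. -/
def FinitelyRepresentable (A : Type u) [Alg A] : Prop :=
  ∃ X : Type v, Finite X ∧ RepresentableOn A X

/-- Homomorphisms. -/
def IsHom {A B : Type u} [Alg A] [Alg B] (f : A → B) : Prop :=
  (∀ a b, f (imp a b) = imp (f a) (f b)) ∧ ∀ a b, f (comp a b) = comp (f a) (f b)

/-- Terms in the signature `(→, ;)`, with variables indexed by the natural numbers. -/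
inductive Term : Type
  | var (n : ℕ) : Term
  | imp (s t : Term) : Term
  | comp (s t : Term) : Term

/-- The value of a term. -/
def Term.eval {A : Type u} [Alg A] (v : ℕ → A) : Term → A
  | .var n => v n
  | .imp s t => Alg.imp (s.eval v) (t.eval v)
  | .comp s t => Alg.comp (s.eval v) (t.eval v)

/-- The algebra `A` is a model of the set `E` of equations. -/
def Models (A : Type u) [Alg A] (E : Set (Term × Term)) : Prop :=
  ∀ e ∈ E, ∀ v : ℕ → A, e.1.eval v = e.2.eval v

/-! ### The quasi-identity -/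

section quasi

variable {A : Type u} [Alg A]

/-- The join `a ∨ b`. -/
def tJoin (a b : A) : A := imp (imp a b) b

/-- The element `(a ∧ b) ∨ r`. -/
def tMeet (a b r : A) : A := imp (imp a (imp b r)) r

/-- The quasi-identity. -/
def Quasi (A : Type u) [Alg A] : Prop :=
  ∀ e e' x k k₁ k₂ r : A, imp k (comp k₁ k₂) = imp k k →
    imp (comp e k) (tJoin (comp (imp e' x) k)
      (comp (tMeet (comp e k₁) (comp e' k₁) r) k₂)) = imp k k

theorem quasi_of_representable (h : Representable.{u, v} A) : Quasi A := by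
  obtain ⟨X, T, h, hT, hinj, hsub, himp, hcomp⟩ := h
  intro e e' x k k₁ k₂ r hk
  have hone : ∀ a, h (imp a a) = T := by
    intro a
    rw [himp]
    exact Set.sdiff_union_of_subset (hsub a)
  have hk' : ∀ p, p ∈ h k → p ∈ rComp (h k₁) (h k₂) := by
    intro p hp
    have h1 : p ∈ h (imp k (comp k₁ k₂)) := by rw [hk, hone]; exact hsub _ hp
    rw [himp, hcomp] at h1
    rcases h1 with h1 | h1
    · exact absurd hp h1.2
    · exact h1
  apply hinj
  rw [hone, himp]
  apply Set.Subset.antisymm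
  · rintro p (hp | hp)
    · exact hp.1
    · exact hsub _ hp
  · intro p hp
    by_cases hpe : p ∈ h (comp e k)
    · right
      have hj : ∀ a b : A, p ∈ h a ∨ p ∈ h b → p ∈ h (tJoin a b) := by
        intro a b hab
        unfold tJoin
        rw [himp, himp]
        by_cases hb : p ∈ h b
        · exact Or.inr hb
        · left
          refine ⟨hp, ?_⟩
          rintro (h1 | h1)
          · exact h1.2 (hab.resolve_right hb)
          · exact hb h1
      apply hj
      rw [hcomp] at hpe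
      obtain ⟨w, hw1, hw2⟩ := hpe
      by_cases hw : (p.1, w) ∈ h e'
      · right
        obtain ⟨m, hm1, hm2⟩ := hk' _ hw2
        simp only at hm1 hm2
        rw [hcomp]
        refine ⟨m, ?_, hm2⟩
        have hm : (p.1, m) ∈ T := hT _ w _ (hsub _ hw1) (hsub _ hm1)
        have c1 : (p.1, m) ∈ h (comp e k₁) := by rw [hcomp]; exact ⟨w, hw1, hm1⟩
        have c2 : (p.1, m) ∈ h (comp e' k₁) := by rw [hcomp]; exact ⟨w, hw, hm1⟩
        unfold tMeet
        rw [himp, himp, himp]
        by_cases hr : (p.1, m) ∈ h r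
        · exact Or.inr hr
        · left
          refine ⟨hm, ?_⟩
          rintro (h1 | h1 | h1)
          · exact h1.2 c1
          · exact h1.2 c2
          · exact hr h1
      · left
        rw [hcomp]
        refine ⟨w, ?_, hw2⟩
        rw [himp]
        exact Or.inl ⟨hsub _ hw1, hw⟩
    · exact Or.inl ⟨hp, hpe⟩

end quasi

/-! ### The algebras -/

/-- The base; the points are called `u, w, p, q, y, d, m, n, d', m', n'`. -/
abbrev Pt : Type := Fin 11

/-- The pairs which belong to all elements of the algebra. -/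
def core : Finset (Pt × Pt) :=
  {(1, 2), (2, 2), (2, 3), (3, 3), (3, 4), (0, 5), (5, 5), (5, 6), (0, 8), (8, 8), (8, 9)}

/-- The transitive relation. -/
def unit : Finset (Pt × Pt) :=
  core ∪ {(0, 1), (0, 2), (0, 3), (0, 4), (1, 3), (1, 4), (2, 4), (0, 6), (0, 7), (5, 7), (5, 4),
    (6, 7), (6, 4), (7, 4), (0, 9), (0, 10), (8, 10), (8, 4), (9, 10), (9, 4), (10, 4)}

/-- The generators `e, e', x, k, k₁, k₂, r`. -/
def gen (i : Fin 7) : Finset (Pt × Pt) :=
  core ∪ ([{(0, 1), (1, 3), (2, 4), (1, 4), (0, 9)},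
    {(0, 1), (0, 2), (0, 3), (1, 3), (2, 4), (1, 4), (0, 6)},
    {(1, 3), (2, 4), (1, 4), (0, 6), (0, 9)},
    {(1, 3), (2, 4), (1, 4), (0, 6), (0, 9)},
    {(2, 4), (1, 4), (0, 6), (0, 9), (6, 7), (9, 10)},
    {(1, 3), (1, 4), (0, 6), (0, 9), (7, 4), (10, 4)},
    {(1, 3), (2, 4), (1, 4), (0, 6), (0, 9)}] : List (Finset (Pt × Pt))).getD i ∅

theorem unit_trans : ∀ x y z : Pt, (x, y) ∈ unit → (y, z) ∈ unit → (x, z) ∈ unit := by decide

/-- The set generated by the generators. -/
inductive Gen : Set (Pt × Pt) → Prop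
  | gen (i : Fin 7) : Gen (gen i)
  | imp {a b : Set (Pt × Pt)} (ha : Gen a) (hb : Gen b) : Gen (rImp (unit : Set (Pt × Pt)) a b)
  | comp {a b : Set (Pt × Pt)} (ha : Gen a) (hb : Gen b) : Gen (rComp a b)

theorem gen_sub : ∀ i, gen i ⊆ unit := by decide

theorem Gen.sub {a : Set (Pt × Pt)} (h : Gen a) : a ⊆ (unit : Set (Pt × Pt)) := by
  induction h with
  | gen i => exact fun p hp => gen_sub i hp
  | imp ha hb iha ihb =>
    rintro p (hp | hp)
    · exact hp.1
    · exact ihb hp
  | comp ha hb iha ihb =>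
    rintro ⟨p, r⟩ ⟨y, h1, h2⟩
    exact unit_trans p y r (iha h1) (ihb h2)

theorem gen_core : ∀ i, core ⊆ gen i := by decide

theorem core_dense : ∀ x z : Pt, (x, z) ∈ core → ∃ y, (x, y) ∈ core ∧ (y, z) ∈ core := by decide

theorem Gen.core {a : Set (Pt × Pt)} (h : Gen a) : (core : Set (Pt × Pt)) ⊆ a := by
  induction h with
  | gen i => exact fun p hp => gen_core i hp
  | imp ha hb iha ihb => exact fun p hp => Or.inr (ihb hp)
  | comp ha hb iha ihb =>
    rintro ⟨x, z⟩ hp
    obtain ⟨y, h1, h2⟩ := core_dense x z hp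
    exact ⟨y, iha h1, ihb h2⟩

/-- Invariant for the pair `(u, m)`. -/
theorem Gen.inv2 {a : Set (Pt × Pt)} (h : Gen a) : ((0, 6) : Pt × Pt) ∈ a ∨ ((0, 9) : Pt × Pt) ∈ a := by
  induction h with
  | gen i =>
    have : ∀ i, ((0, 6) : Pt × Pt) ∈ Pool.Agent.Results.MP_390e14_lc.NotAVariety.gen i ∨
      ((0, 9) : Pt × Pt) ∈ Pool.Agent.Results.MP_390e14_lc.NotAVariety.gen i := by decide
    exact this i
  | imp ha hb iha ihb =>
    rcases ihb with h | h
    · exact Or.inl (Or.inr h)
    · exact Or.inr (Or.inr h)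
  | comp ha hb iha ihb =>
    exact Or.inl ⟨5, ha.core (by decide : ((0, 5) : Pt × Pt) ∈ NotAVariety.core),
      hb.core (by decide : ((5, 6) : Pt × Pt) ∈ NotAVariety.core)⟩

/-- Invariant for the pair `(w, q)`. -/
theorem Gen.inv4 {a : Set (Pt × Pt)} (h : Gen a) :
    ((1, 3) : Pt × Pt) ∈ a ∨ (((6, 7) : Pt × Pt) ∈ a ∧ ((9, 10) : Pt × Pt) ∈ a) := by
  induction h with
  | gen i =>
    have : ∀ i, ((1, 3) : Pt × Pt) ∈ NotAVariety.gen i ∨
      (((6, 7) : Pt × Pt) ∈ NotAVariety.gen i ∧ ((9, 10) : Pt × Pt) ∈ NotAVariety.gen i) := by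
      decide
    exact this i
  | imp ha hb iha ihb =>
    rcases ihb with h | h
    · exact Or.inl (Or.inr h)
    · exact Or.inr ⟨Or.inr h.1, Or.inr h.2⟩
  | comp ha hb iha ihb =>
    exact Or.inl ⟨2, ha.core (by decide : ((1, 2) : Pt × Pt) ∈ NotAVariety.core),
      hb.core (by decide : ((2, 3) : Pt × Pt) ∈ NotAVariety.core)⟩

/-- Invariant for the pair `(p, y)`. -/
theorem Gen.inv5 {a : Set (Pt × Pt)} (h : Gen a) :
    ((2, 4) : Pt × Pt) ∈ a ∨ (((7, 4) : Pt × Pt) ∈ a ∧ ((10, 4) : Pt × Pt) ∈ a) := by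
  induction h with
  | gen i =>
    have : ∀ i, ((2, 4) : Pt × Pt) ∈ NotAVariety.gen i ∨
      (((7, 4) : Pt × Pt) ∈ NotAVariety.gen i ∧ ((10, 4) : Pt × Pt) ∈ NotAVariety.gen i) := by
      decide
    exact this i
  | imp ha hb iha ihb =>
    rcases ihb with h | h
    · exact Or.inl (Or.inr h)
    · exact Or.inr ⟨Or.inr h.1, Or.inr h.2⟩
  | comp ha hb iha ihb =>
    exact Or.inl ⟨3, ha.core (by decide : ((2, 3) : Pt × Pt) ∈ NotAVariety.core),
      hb.core (by decide : ((3, 4) : Pt × Pt) ∈ NotAVariety.core)⟩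

/-- Invariant for the pair `(w, y)`. -/
theorem Gen.inv1 {a : Set (Pt × Pt)} (h : Gen a) :
    ((1, 4) : Pt × Pt) ∈ a ∨ (((6, 4) : Pt × Pt) ∈ a ∧ ((9, 4) : Pt × Pt) ∈ a) := by
  induction h with
  | gen i =>
    have : ∀ i, ((1, 4) : Pt × Pt) ∈ NotAVariety.gen i := by decide
    exact Or.inl (this i)
  | imp ha hb iha ihb =>
    rcases ihb with h | h
    · exact Or.inl (Or.inr h)
    · exact Or.inr ⟨Or.inr h.1, Or.inr h.2⟩
  | comp ha hb iha ihb =>
    rcases hb.inv5 with h5 | h5
    · exact Or.inl ⟨2, ha.core (by decide : ((1, 2) : Pt × Pt) ∈ NotAVariety.core), h5⟩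
    · rcases ha.inv4 with h4 | h4
      · exact Or.inl ⟨3, h4, hb.core (by decide : ((3, 4) : Pt × Pt) ∈ NotAVariety.core)⟩
      · exact Or.inr ⟨⟨7, h4.1, h5.1⟩, ⟨10, h4.2, h5.2⟩⟩

/-- The crucial property of the pair `(u, y)`. -/
theorem Gen.key {a b : Set (Pt × Pt)} (ha : Gen a) (hb : Gen b) (h : ((0, 1) : Pt × Pt) ∈ a) :
    ((0, 4) : Pt × Pt) ∈ rComp a b := by
  rcases hb.inv1 with h1 | h1
  · exact ⟨1, h, h1⟩
  · rcases ha.inv2 with h2 | h2
    · exact ⟨6, h2, h1.1⟩
    · exact ⟨9, h2, h1.2⟩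

/-- The representable algebra. -/
def AA : Type := {a : Set (Pt × Pt) // Gen a}

instance : Alg AA where
  imp a b := ⟨rImp (unit : Set (Pt × Pt)) a.1 b.1, Gen.imp a.2 b.2⟩
  comp a b := ⟨rComp a.1 b.1, Gen.comp a.2 b.2⟩

instance : Finite AA := inferInstanceAs (Finite {a : Set (Pt × Pt) // Gen a})

theorem AA_rep : RepresentableOn AA Pt :=
  ⟨unit, Subtype.val, unit_trans, Subtype.val_injective, fun a => a.2.sub, fun _ _ => rfl,
    fun _ _ => rfl⟩

/-- Two relations are identified if they differ at most in the pair `(w, y)`. -/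
def Near (a b : Set (Pt × Pt)) : Prop := ∀ p : Pt × Pt, p ≠ (1, 4) → (p ∈ a ↔ p ∈ b)

/-- The congruence. -/
def cong : Setoid AA where
  r a b := Near a.1 b.1
  iseqv :=
    { refl := fun _ _ _ => Iff.rfl
      symm := fun h p hp => (h p hp).symm
      trans := fun h h' p hp => (h p hp).trans (h' p hp) }

theorem near_imp {a a' b b' : Set (Pt × Pt)} (ha : Near a a') (hb : Near b b') :
    Near (rImp (unit : Set (Pt × Pt)) a b) (rImp (unit : Set (Pt × Pt)) a' b') := by
  intro p hp
  simp only [rImp, Set.mem_union, Set.mem_sdiff, ha p hp, hb p hp]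

theorem near_comp_aux {a a' b b' : Set (Pt × Pt)} (ha : Gen a) (hb : Gen b) (ha' : Gen a')
    (hb' : Gen b') (hn : Near a a') (hm : Near b b') (p : Pt × Pt) (h : p ∈ rComp a b) :
    p ∈ rComp a' b' := by
  obtain ⟨x, z⟩ := p
  obtain ⟨y, h1, h2⟩ := h
  simp only at h1 h2
  have c1 : (x, y) ≠ (1, 4) := by
    intro hxy
    have hy : y = 4 := congrArg Prod.snd hxy
    subst hy
    have : ∀ z : Pt, ((4, z) : Pt × Pt) ∉ unit := by decide
    exact this z (hb.sub h2)
  by_cases c2 : (y, z) = (1, 4)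
  · have hy : y = 1 := congrArg Prod.fst c2
    have hz : z = 4 := congrArg Prod.snd c2
    subst hy hz
    have : ∀ x : Pt, ((x, 1) : Pt × Pt) ∈ unit → x = 0 := by decide
    have hx : x = 0 := this x (ha.sub h1)
    subst hx
    exact Gen.key ha' hb' ((hn _ c1).1 h1)
  · exact ⟨y, (hn _ c1).1 h1, (hm _ c2).1 h2⟩

theorem near_symm {a b : Set (Pt × Pt)} (h : Near a b) : Near b a := fun p hp => (h p hp).symm

/-- The quotient algebra. -/
def BB : Type := Quotient cong

instance : Alg BB where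
  imp := Quotient.map₂ (fun a b : AA => imp a b) fun _ _ h₁ _ _ h₂ => near_imp h₁ h₂
  comp := Quotient.map₂ (fun a b : AA => comp a b) fun a a' h₁ b b' h₂ p _ =>
    ⟨near_comp_aux a.2 b.2 a'.2 b'.2 h₁ h₂ p,
      near_comp_aux a'.2 b'.2 a.2 b.2 (near_symm h₁) (near_symm h₂) p⟩

/-- The quotient map. -/
def quo (a : AA) : BB := Quotient.mk cong a

theorem quo_surj : Function.Surjective quo := Quotient.mk_surjective

theorem quo_hom : IsHom quo := ⟨fun _ _ => rfl, fun _ _ => rfl⟩

theorem quo_eq {a b : AA} : quo a = quo b ↔ Near a.1 b.1 := Quotient.eq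

/-- The generators as elements of the algebra. -/
def gg (i : Fin 7) : AA := ⟨gen i, Gen.gen i⟩

theorem mem_join {T a b : Set (Pt × Pt)} {p : Pt × Pt} (h : p ∈ rImp T (rImp T a b) b) :
    p ∈ a ∨ p ∈ b := by
  rcases h with h | h
  · left
    by_contra ha
    exact h.2 (Or.inl ⟨h.1, ha⟩)
  · exact Or.inr h

theorem mem_meet {T a b r : Set (Pt × Pt)} {p : Pt × Pt}
    (h : p ∈ rImp T (rImp T a (rImp T b r)) r) : (p ∈ a ∧ p ∈ b) ∨ p ∈ r := by
  rcases h with h | h
  · left
    refine ⟨?_, ?_⟩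
    · by_contra ha
      exact h.2 (Or.inl ⟨h.1, ha⟩)
    · by_contra hb
      exact h.2 (Or.inr (Or.inl ⟨h.1, hb⟩))
  · exact Or.inr h

set_option maxRecDepth 20000 in
theorem hyp_holds : ∀ p ∈ gen 3, p ≠ (1, 4) → ∃ y, (p.1, y) ∈ gen 4 ∧ (y, p.2) ∈ gen 5 := by
  decide

theorem fail1 : ∀ y : Pt, (((0, y) ∈ unit ∧ (0, y) ∉ gen 1) ∨ (0, y) ∈ gen 2) →
    (y, 4) ∉ gen 3 := by decide

theorem fail2 : ∀ y : Pt, (((∃ z, (0, z) ∈ gen 0 ∧ (z, y) ∈ gen 4) ∧
    ∃ z, (0, z) ∈ gen 1 ∧ (z, y) ∈ gen 4) ∨ (0, y) ∈ gen 6) → (y, 4) ∉ gen 5 := by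
  intro y h hy
  have h5 : ∀ y : Pt, (y, 4) ∈ gen 5 → y = 1 ∨ y = 3 ∨ y = 7 ∨ y = 10 := by decide
  rcases h5 y hy with rfl | rfl | rfl | rfl
  · rcases h with ⟨⟨z, h1, h2⟩, -⟩ | h
    · have : ∀ z : Pt, (0, z) ∈ gen 0 → (z, 1) ∉ gen 4 := by decide
      exact this z h1 h2
    · exact absurd h (by decide)
  · rcases h with ⟨⟨z, h1, h2⟩, -⟩ | h
    · have : ∀ z : Pt, (0, z) ∈ gen 0 → (z, 3) ∉ gen 4 := by decide
      exact this z h1 h2
    · exact absurd h (by decide)
  · rcases h with ⟨⟨z, h1, h2⟩, -⟩ | h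
    · have : ∀ z : Pt, (0, z) ∈ gen 0 → (z, 7) ∉ gen 4 := by decide
      exact this z h1 h2
    · exact absurd h (by decide)
  · rcases h with ⟨-, ⟨z, h1, h2⟩⟩ | h
    · have : ∀ z : Pt, (0, z) ∈ gen 1 → (z, 10) ∉ gen 4 := by decide
      exact this z h1 h2
    · exact absurd h (by decide)

theorem not_quasi : ¬ Quasi BB := by
  intro h
  have h1 := h (quo (gg 0)) (quo (gg 1)) (quo (gg 2)) (quo (gg 3)) (quo (gg 4)) (quo (gg 5))
    (quo (gg 6)) (by
      change quo (imp (gg 3) (comp (gg 4) (gg 5))) = quo (imp (gg 3) (gg 3))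
      rw [quo_eq]
      intro p hp
      change p ∈ rImp (unit : Set (Pt × Pt)) (gen 3) (rComp (gen 4) (gen 5)) ↔
        p ∈ rImp (unit : Set (Pt × Pt)) (gen 3) (gen 3)
      constructor
      · rintro (h | h)
        · exact Or.inl h
        · have hu : p ∈ (unit : Set (Pt × Pt)) := (Gen.comp (Gen.gen 4) (Gen.gen 5)).sub h
          by_cases h3 : p ∈ (gen 3 : Set (Pt × Pt))
          · exact Or.inr h3
          · exact Or.inl ⟨hu, h3⟩
      · rintro (h | h)
        · exact Or.inl h
        · exact Or.inr (hyp_holds p h hp))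
  change quo (imp (comp (gg 0) (gg 3)) (tJoin (comp (imp (gg 1) (gg 2)) (gg 3))
    (comp (tMeet (comp (gg 0) (gg 4)) (comp (gg 1) (gg 4)) (gg 6)) (gg 5)))) =
    quo (imp (gg 3) (gg 3)) at h1
  rw [quo_eq] at h1
  have h2 := (h1 (0, 4) (by decide)).2 (Or.inl ⟨(by decide : ((0, 4) : Pt × Pt) ∈ unit),
    (by decide : ((0, 4) : Pt × Pt) ∉ gen 3)⟩)
  rcases h2 with h2 | h2
  · exact h2.2 ⟨1, (by decide : ((0, 1) : Pt × Pt) ∈ gen 0), (by decide : ((1, 4) : Pt × Pt) ∈ gen 3)⟩
  · rcases mem_join h2 with h3 | h3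
    · obtain ⟨y, h4, h5⟩ := h3
      exact fail1 y h4 h5
    · obtain ⟨y, h4, h5⟩ := h3
      exact fail2 y (mem_meet h4) h5

/-- The class of representable implication semigroups is not a variety: it is not closed under
homomorphic images (a finite, finitely representable algebra has a homomorphic image that is not
representable), and it is not the class of all models of any set of equations. -/
theorem result :
    (∃ (A B : Type) (_ : Alg A) (_ : Alg B) (f : A → B), Finite A ∧
      FinitelyRepresentable.{0, 0} A ∧ IsHom f ∧ Function.Surjective f ∧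
      ¬ Representable.{0, v} B) ∧
    ¬ ∃ E : Set (Term × Term), ∀ (A : Type) [Alg A], Models A E ↔ Representable.{0, 0} A := by
  have hB : ¬ Representable.{0, v} BB := fun h => not_quasi (quasi_of_representable h)
  have hB0 : ¬ Representable.{0, 0} BB := fun h => not_quasi (quasi_of_representable h)
  refine ⟨⟨AA, BB, inferInstance, inferInstance, quo, inferInstance,
    ⟨Pt, inferInstance, AA_rep⟩, quo_hom, quo_surj, hB⟩, ?_⟩
  rintro ⟨E, hE⟩
  have hA : Models AA E := (hE AA).2 ⟨Pt, AA_rep⟩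
  apply hB0
  rw [← hE BB]
  intro e he v
  choose v' hv' using fun n => quo_surj (v n)
  have hev : ∀ t : Term, t.eval v = quo (t.eval v') := by
    intro t
    induction t with
    | var n => exact (hv' n).symm
    | imp s t ihs iht =>
      change imp (s.eval v) (t.eval v) = quo (imp (s.eval v') (t.eval v'))
      rw [ihs, iht, quo_hom.1]
    | comp s t ihs iht =>
      change comp (s.eval v) (t.eval v) = quo (comp (s.eval v') (t.eval v'))
      rw [ihs, iht, quo_hom.2]
  rw [hev, hev, hA e he v']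

end Pool.Agent.Results.MP_390e14_lc.NotAVariety
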